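import Mathlib

set_option autoImplicit false

namespace Pool.Agent.Results.MP_33f3d1_co.NonUnique

/-- `Y` is a relating retract of `X`: there is an order-preserving map `r` of `X` into `Y`,
fixing `Y` pointwise, with `x` and `r x` comparable for all `x` outside `Y`. -/
def IsRelatingRetract {X : Type} [PartialOrder X] (Y : Set X) : Prop :=
  ∃ r : X → X, Monotone r ∧ (∀ x, r x ∈ Y) ∧ (∀ y ∈ Y, r y = y) ∧
    ∀ x, x ∉ Y → (x ≤ r x ∨ r x ≤ x)

/-- `Y` is a minimal relating retract of `X`. -/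
def IsMinimalRelatingRetract {X : Type} [PartialOrder X] (Y : Set X) : Prop :=
  IsRelatingRetract Y ∧ ∀ Z : Set X, Z ⊂ Y → Z.Nonempty → ¬ IsRelatingRetract Z

/-- carrier of the example -/
def P : Type := Fin 7

instance : DecidableEq P := inferInstanceAs (DecidableEq (Fin 7))
instance : Fintype P := inferInstanceAs (Fintype (Fin 7))

def lt7 : List (ℕ × ℕ) :=
  [(0, 2), (0, 4), (0, 5), (0, 6), (1, 2), (1, 3), (1, 5), (1, 6), (2, 5), (2, 6), (3, 5),
    (4, 5), (4, 6)]

def le7 (a b : Fin 7) : Bool := a == b || lt7.contains (a.val, b.val)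

instance : PartialOrder P where
  le a b := le7 a b = true
  le_refl := by decide
  le_trans := by decide
  le_antisymm := by decide

instance : DecidableRel (fun a b : P => a ≤ b) := fun a b =>
  inferInstanceAs (Decidable (le7 a b = true))

def e (i : Fin 7) : P := i

lemma small : ∀ (a b : Fin 7) (s : Fin 7 → Bool),
    ¬ ((∀ x y : Fin 7, le7 x y = true →
        le7 (if s x then a else b) (if s y then a else b) = true) ∧
      ∀ x : Fin 7, le7 x (if s x then a else b) = true ∨ le7 (if s x then a else b) x = true) := by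
  decide +kernel

lemma three_le (Z : Set P) (h : IsRelatingRetract Z) : 3 ≤ Z.ncard := by
  classical
  by_contra hlt
  obtain ⟨r, hm, hZ, hfix, hc⟩ := h
  have hne : Z.Nonempty := ⟨r (e 0), hZ _⟩
  have hab : ∃ a b : P, ∀ z ∈ Z, z = a ∨ z = b := by
    have h2 : Z.ncard ≤ 2 := by omega
    have h1 : 0 < Z.ncard := (Set.ncard_pos (Set.toFinite Z)).mpr hne
    rcases (by omega : Z.ncard = 1 ∨ Z.ncard = 2) with h | h
    · obtain ⟨a, rfl⟩ := Set.ncard_eq_one.mp h
      exact ⟨a, a, fun z hz => Or.inl hz⟩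
    · obtain ⟨a, b, _, rfl⟩ := Set.ncard_eq_two.mp h
      exact ⟨a, b, fun z hz => hz⟩
  obtain ⟨a, b, hab⟩ := hab
  have hr : ∀ x, (if decide (r x = a) then a else b) = r x := by
    intro x
    by_cases hx : r x = a
    · simp [hx]
    · simp only [hx, decide_false, Bool.false_eq_true, if_false]
      rcases hab _ (hZ x) with h | h
      · exact absurd h hx
      · exact h.symm
  apply small a b (fun x => decide (r x = a))
  constructor
  · intro x y hxy
    have := hm (a := x) (b := y) hxy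
    rw [← hr x, ← hr y] at this
    exact this
  · intro x
    have : @LE.le P _ x (r x) ∨ @LE.le P _ (r x) x := by
      by_cases hx : (x : P) ∈ Z
      · left; rw [hfix x hx]
      · exact hc x hx
    rw [← hr x] at this
    exact this

def Y1 : Set P := {e 0, e 1, e 2}
def Y2 : Set P := {e 0, e 2, e 5}

instance : DecidablePred (· ∈ Y1) := fun x =>
  inferInstanceAs (Decidable (x = e 0 ∨ x = e 1 ∨ x = e 2))
instance : DecidablePred (· ∈ Y2) := fun x =>
  inferInstanceAs (Decidable (x = e 0 ∨ x = e 2 ∨ x = e 5))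

def r1 : P → P := fun x : Fin 7 => (![0, 1, 2, 1, 0, 2, 2] : Fin 7 → Fin 7) x
def r2 : P → P := fun x : Fin 7 => (![0, 2, 2, 5, 0, 5, 2] : Fin 7 → Fin 7) x

lemma rr1 : IsRelatingRetract Y1 :=
  ⟨r1, by unfold Monotone; decide, by decide, by decide, by decide⟩

lemma rr2 : IsRelatingRetract Y2 :=
  ⟨r2, by unfold Monotone; decide, by decide, by decide, by decide⟩

lemma c1 : Y1.ncard = 3 := by
  unfold Y1
  rw [Set.ncard_eq_three]
  exact ⟨_, _, _, by decide, by decide, by decide, rfl⟩

lemma c2 : Y2.ncard = 3 := by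
  unfold Y2
  rw [Set.ncard_eq_three]
  exact ⟨_, _, _, by decide, by decide, by decide, rfl⟩

lemma minimal_of (Y : Set P) (h : IsRelatingRetract Y) (hc : Y.ncard = 3) :
    IsMinimalRelatingRetract Y := by
  refine ⟨h, fun Z hZ _ hr => ?_⟩
  have h1 := three_le Z hr
  have h2 := Set.ncard_lt_ncard hZ (Set.toFinite Y)
  omega

theorem result :
    ∃ (X : Type) (_ : PartialOrder X) (_ : Finite X) (Y₁ Y₂ : Set X),
      IsMinimalRelatingRetract Y₁ ∧ IsMinimalRelatingRetract Y₂ ∧
      (∀ Z : Set X, IsRelatingRetract Z → Y₁.ncard ≤ Z.ncard ∧ Y₂.ncard ≤ Z.ncard) ∧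
      IsEmpty (Y₁ ≃o Y₂) := by
  refine ⟨P, inferInstance, inferInstance, Y1, Y2, minimal_of _ rr1 c1, minimal_of _ rr2 c2,
    fun Z hZ => ?_, ⟨fun f => ?_⟩⟩
  · rw [c1, c2]; exact ⟨three_le Z hZ, three_le Z hZ⟩
  · have tot : ∀ a b : P, a ∈ Y2 → b ∈ Y2 → a ≤ b ∨ b ≤ a := by decide
    let a : Y1 := ⟨e 0, by decide⟩
    let b : Y1 := ⟨e 1, by decide⟩
    rcases tot (f a).1 (f b).1 (f a).2 (f b).2 with h | h
    · have : a ≤ b := f.le_iff_le.mp h
      exact absurd (show e 0 ≤ e 1 from this) (by decide)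
    · have : b ≤ a := f.le_iff_le.mp h
      exact absurd (show e 1 ≤ e 0 from this) (by decide)

end Pool.Agent.Results.MP_33f3d1_co.NonUnique
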